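import Pool.Agent.W902.Q.Stm

/-!
# Project Q: a local form is computed in one pass with `p * p` states
-/

set_option autoImplicit false

open Finset

namespace Pool.Agent.W366.QProg

open Pool.Agent.W902.Q

section

variable {n G p r : ℕ}

/-- the sum of the words of the group `g` read before the time `t` -/
def SS (π : Fin n → Fin G) (σ : Equiv.Perm (Fin n)) (x : Fin n → ZMod p) (t : ℕ) (g : Fin G) :
    ZMod p :=
  ∑ s ∈ univ.filter (fun s : Fin n => s.1 < t ∧ π (σ s) = g), x (σ s)

theorem SS_zero (π : Fin n → Fin G) (σ : Equiv.Perm (Fin n)) (x : Fin n → ZMod p) (g : Fin G) :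
    SS π σ x 0 g = 0 := by
  unfold SS
  rw [Finset.filter_false_of_mem, Finset.sum_empty]
  intro s _ h
  exact absurd h.1 (Nat.not_lt_zero _)

theorem SS_end (π : Fin n → Fin G) (σ : Equiv.Perm (Fin n)) (x : Fin n → ZMod p) (g : Fin G) :
    SS π σ x n g = ell π g x := by
  unfold SS ell
  refine Finset.sum_nbij' (fun s => σ s) (fun v => σ.symm v) ?_ ?_ ?_ ?_ ?_
  · intro s hs
    simp only [mem_filter, mem_univ, true_and] at hs ⊢
    exact hs.2
  · intro v hv
    simp only [mem_filter, mem_univ, true_and, Equiv.apply_symm_apply] at hv ⊢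
    exact ⟨(σ.symm v).2, hv⟩
  · intro s _
    exact σ.symm_apply_apply s
  · intro v _
    exact σ.apply_symm_apply v
  · intro s _
    rfl

theorem SS_succ (π : Fin n → Fin G) (σ : Equiv.Perm (Fin n)) (x : Fin n → ZMod p) (t : ℕ)
    (h : t < n) (g : Fin G) :
    SS π σ x (t + 1) g = SS π σ x t g + if π (σ ⟨t, h⟩) = g then x (σ ⟨t, h⟩) else 0 := by
  unfold SS
  by_cases hg : π (σ ⟨t, h⟩) = g
  · rw [if_pos hg]
    have h1 : univ.filter (fun s : Fin n => s.1 < t + 1 ∧ π (σ s) = g) =
        insert ⟨t, h⟩ (univ.filter (fun s : Fin n => s.1 < t ∧ π (σ s) = g)) := by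
      ext s
      simp only [mem_filter, mem_univ, true_and, mem_insert]
      constructor
      · rintro ⟨h1, h2⟩
        rcases Nat.lt_succ_iff_lt_or_eq.1 h1 with h3 | h3
        · exact Or.inr ⟨h3, h2⟩
        · exact Or.inl (Fin.ext h3)
      · rintro (h1 | h1)
        · rw [h1]
          exact ⟨Nat.lt_succ_self _, hg⟩
        · exact ⟨Nat.lt_succ_of_lt h1.1, h1.2⟩
    rw [h1, Finset.sum_insert, add_comm]
    simp
  · rw [if_neg hg, add_zero]
    congr 1
    ext s
    simp only [mem_filter, mem_univ, true_and]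
    constructor
    · rintro ⟨h1, h2⟩
      rcases Nat.lt_succ_iff_lt_or_eq.1 h1 with h3 | h3
      · exact ⟨h3, h2⟩
      · exfalso
        apply hg
        rw [← h2]
        congr 2
        exact Fin.ext h3.symm
    · rintro ⟨h1, h2⟩
      exact ⟨Nat.lt_succ_of_lt h1, h2⟩

/-- whether the position read before the time `t` has the group of the position read at `t` -/
def same (π : Fin n → Fin G) (σ : Equiv.Perm (Fin n)) (t : Fin n) : Prop :=
  ∃ s : Fin n, s.1 + 1 = t.1 ∧ π (σ s) = π (σ t)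

instance (π : Fin n → Fin G) (σ : Equiv.Perm (Fin n)) (t : Fin n) : Decidable (same π σ t) :=
  inferInstanceAs (Decidable (∃ s : Fin n, s.1 + 1 = t.1 ∧ π (σ s) = π (σ t)))

/-- the step on pairs -/
def stp (r : ℕ) (π : Fin n → Fin G) (σ : Equiv.Perm (Fin n)) (c : Fin G → ZMod p) (t : Fin n)
    (w : ZMod p × ZMod p) (a : ZMod p) : ZMod p × ZMod p :=
  ((if same π σ t then w.1 else 0) + a,
    w.2 + c (π (σ t)) * (((if same π σ t then w.1 else 0) + a) ^ r -
      (if same π σ t then w.1 else 0) ^ r))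

/-- the invariant -/
def Inv (r : ℕ) (π : Fin n → Fin G) (σ : Equiv.Perm (Fin n)) (c : Fin G → ZMod p)
    (x : Fin n → ZMod p) (t : ℕ) (w : ZMod p × ZMod p) : Prop :=
  (∀ s : Fin n, s.1 + 1 = t → w.1 = SS π σ x t (π (σ s))) ∧
    w.2 = ∑ g, c g * SS π σ x t g ^ r

theorem Inv.step (π : Fin n → Fin G) (σ : Equiv.Perm (Fin n)) (hσ : Monotone (π ∘ σ))
    (c : Fin G → ZMod p) (x : Fin n → ZMod p) (t : ℕ) (h : t < n) (w : ZMod p × ZMod p)
    (hw : Inv r π σ c x t w) :
    Inv r π σ c x (t + 1) (stp r π σ c ⟨t, h⟩ w (x (σ ⟨t, h⟩))) := by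
  have h1 : (if same π σ ⟨t, h⟩ then w.1 else 0) = SS π σ x t (π (σ ⟨t, h⟩)) := by
    split_ifs with h2
    · obtain ⟨s, hs, hs'⟩ := h2
      rw [hw.1 s hs, hs']
    · symm
      unfold SS
      rw [Finset.filter_false_of_mem, Finset.sum_empty]
      rintro s - ⟨hs, hs'⟩
      apply h2
      have ht : 0 < t := lt_of_le_of_lt (Nat.zero_le _) hs
      refine ⟨⟨t - 1, by omega⟩, by simp only; omega, ?_⟩
      apply le_antisymm
      · exact hσ (show (⟨t - 1, by omega⟩ : Fin n) ≤ ⟨t, h⟩ from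
          Fin.le_def.2 (by simp only; omega))
      · rw [← hs']
        exact hσ (show s ≤ (⟨t - 1, by omega⟩ : Fin n) from Fin.le_def.2 (by simp only; omega))
  constructor
  · intro s hs
    have hs1 : s = ⟨t, h⟩ := Fin.ext (Nat.succ_injective hs)
    rw [hs1, SS_succ π σ x t h, if_pos rfl]
    unfold stp
    simp only
    rw [h1]
  · unfold stp
    simp only
    rw [h1, hw.2]
    have h3 : ∀ g, SS π σ x (t + 1) g ^ r = SS π σ x t g ^ r +
        if π (σ ⟨t, h⟩) = g then (SS π σ x t (π (σ ⟨t, h⟩)) + x (σ ⟨t, h⟩)) ^ r -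
          SS π σ x t (π (σ ⟨t, h⟩)) ^ r else 0 := by
      intro g
      rw [SS_succ π σ x t h]
      by_cases hg : π (σ ⟨t, h⟩) = g
      · rw [if_pos hg, if_pos hg, ← hg]
        ring
      · rw [if_neg hg, if_neg hg, add_zero, add_zero]
    simp only [h3, mul_add, Finset.sum_add_distrib, mul_ite, mul_zero, Finset.sum_ite_eq,
      mem_univ, if_true]

end

theorem prog : S_prog := by
  intro n G p r hp π c
  haveI : NeZero p := ⟨hp.ne'⟩
  have hcard : Fintype.card (Fin (p * p)) = Fintype.card (ZMod p × ZMod p) := by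
    rw [Fintype.card_fin, Fintype.card_prod, ZMod.card]
  obtain ⟨e⟩ := Fintype.card_eq.1 hcard
  let σ : Equiv.Perm (Fin n) := Tuple.sort π
  have hσ : Monotone (π ∘ σ) := Tuple.monotone_sort π
  let P : OnePass n (ZMod p) (p * p) :=
    { ord := σ
      init := e.symm (0, ∑ g, c g * (0 : ZMod p) ^ r)
      step := fun t w a => e.symm (stp r π σ c t (e w) a)
      acc := fun w => (e w).2 = 0 }
  refine ⟨P, fun x => ?_⟩
  have hinv : ∀ t : ℕ, t ≤ n → Inv r π σ c x t (e (P.run x t)) := by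
    intro t
    induction t with
    | zero =>
      intro _
      have h1 : e (P.run x 0) = (0, ∑ g, c g * (0 : ZMod p) ^ r) := e.apply_symm_apply _
      rw [h1]
      refine ⟨fun s hs => absurd hs (Nat.succ_ne_zero _), ?_⟩
      simp only [SS_zero]
    | succ t ih =>
      intro ht
      have ht' : t < n := ht
      have h1 : P.run x (t + 1) = e.symm (stp r π σ c ⟨t, ht'⟩ (e (P.run x t)) (x (σ ⟨t, ht'⟩))) := by
        change (if h : t < n then P.step ⟨t, h⟩ (P.run x t) (x (P.ord ⟨t, h⟩)) else P.run x t) = _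
        rw [dif_pos ht']
      rw [h1, Equiv.apply_symm_apply]
      exact (ih ht'.le).step π σ hσ c x t ht' _
  have h2 := (hinv n le_rfl).2
  change (e (P.run x n)).2 = 0 ↔ frm r π c x = 0
  rw [h2]
  unfold frm
  simp only [SS_end]

end Pool.Agent.W366.QProg
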